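import Pool.Agent.Y731.FG.Stm
import Pool.Agent.W603.PV.Disc

/-! Project FG: the data for a family of finite extensions of a function field. -/

set_option autoImplicit false

namespace Pool.Agent.Y73.FG

open FF Filter Pool.Agent.W603.LV Pool.Agent.W603.PV Pool.Agent.W603.CZ Pool.Agent.Y731.FG

section one

variable {k F L : Type} [Field k] [IsAlgClosed k] [CharZero k] [Field F] [Algebra k F] [IsFF k F]
  [Field L] [Algebra k L] [Algebra F L] [IsScalarTower k F L] [FiniteDimensional F L] [IsFF k L]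

theorem ram_sub_nonneg (P : Place k L) : (0 : ℤ) ≤ (ram F P : ℤ) - 1 := by
  have := (ram_spec (F := F) P).1
  omega

theorem disc_nonneg : 0 ≤ disc k F L := finsum_nonneg fun P => ram_sub_nonneg P

theorem sum_ram_sub_le (T : Finset (Place k L)) : ∑ P ∈ T, ((ram F P : ℤ) - 1) ≤ disc k F L := by
  classical
  have h2 : disc k F L = ∑ P ∈ T ∪ (ram_finite (k := k) (F := F) (L := L)).toFinset,
      ((ram F P : ℤ) - 1) := by
    unfold disc
    rw [finsum_eq_sum_of_support_subset (s := T ∪ (ram_finite (F := F)).toFinset)]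
    intro P hP
    have hP' : (ram F P : ℤ) - 1 ≠ 0 := hP
    simp only [Finset.coe_union, Set.Finite.coe_toFinset, Set.mem_union, Set.mem_ofPred_eq]
    exact Or.inr hP'
  rw [h2]
  exact Finset.sum_le_sum_of_subset_of_nonneg Finset.subset_union_left
    fun P _ _ => ram_sub_nonneg P

theorem sum_vo_le {D : Derivation k F F} (hD : D ≠ 0) {D' : Derivation k L L} (hD' : D' ≠ 0)
    (hDD' : ∀ x, D' (algebraMap F L x) = algebraMap F L (D x)) (T : Finset (Place k L)) :
    ∑ P ∈ T, |vo P D'| ≤ Module.finrank F L *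
      ∑ v ∈ (vo_finite hD).toFinset, |vo v D| * hgt k (unif v) + disc k F L := by
  classical
  set V : Finset (Place k F) := (vo_finite hD).toFinset with hV
  have hVmem : ∀ v, vo v D ≠ 0 → v ∈ V := fun v hv => by simp [hV, hv]
  have h1 : ∑ P ∈ T, |vo P D'| ≤ ∑ P ∈ T, (ram F P : ℤ) * |vo (under F P) D| +
      ∑ P ∈ T, ((ram F P : ℤ) - 1) := by
    rw [← Finset.sum_add_distrib]
    refine Finset.sum_le_sum fun P _ => ?_
    rw [vo_under hD hD' hDD' P]
    have h3 := abs_sub ((ram F P : ℤ) * vo (under F P) D) ((ram F P : ℤ) - 1)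
    rw [abs_mul, abs_of_nonneg (ram_sub_nonneg (F := F) P),
      abs_of_nonneg (by positivity : (0 : ℤ) ≤ ram F P)] at h3
    exact h3
  refine h1.trans (add_le_add ?_ (sum_ram_sub_le T))
  have h6 : ∑ P ∈ T, (ram F P : ℤ) * |vo (under F P) D| ≤
      ∑ P ∈ T.filter (fun P => under F P ∈ V), (ram F P : ℤ) * |vo (under F P) D| := by
    rw [Finset.sum_filter]
    refine Finset.sum_le_sum fun P _ => ?_
    split_ifs with h
    · exact le_rfl
    · have h7 : vo (under F P) D = 0 := by
        by_contra hcon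
        exact h (hVmem _ hcon)
      rw [h7]; simp
  refine h6.trans ?_
  rw [← Finset.sum_fiberwise_of_maps_to (t := V) (g := fun P => under F P)
    (fun P hP => (Finset.mem_filter.1 hP).2), Finset.mul_sum]
  refine Finset.sum_le_sum fun v _ => ?_
  have h9 : ∑ P ∈ (T.filter (fun P => under F P ∈ V)).filter (fun P => under F P = v),
      (ram F P : ℤ) * |vo (under F P) D| = (∑ P ∈ (T.filter (fun P => under F P ∈ V)).filter
        (fun P => under F P = v), (ram F P : ℤ)) * |vo v D| := by
    rw [Finset.sum_mul]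
    refine Finset.sum_congr rfl fun P hP => ?_
    rw [(Finset.mem_filter.1 hP).2]
  rw [h9]
  have h10 := sum_ram_le (L := L) v (ord_unif v) ((T.filter (fun P => under F P ∈ V)).filter
    (fun P => under F P = v)) fun P hP => (Finset.mem_filter.1 hP).2
  have h11 := mul_le_mul_of_nonneg_right h10 (abs_nonneg (vo v D))
  linarith

end one

theorem dt : S_DT := by
  intro I 𝒰 k F _ _ _ _ _ _ L _ _ _ _ _ _ χ hχ
  classical
  have hF : CharZero F := charZero_of_injective_algebraMap (algebraMap k F).injective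
  have hdisc : ∀ i, 0 ≤ disc k F (L i) := fun i => disc_nonneg
  have hfr : ∀ i, (1 : ℤ) ≤ Module.finrank F (L i) := fun i => by
    exact_mod_cast Module.finrank_pos (R := F) (M := L i)
  have hχ1 : ∀ i, 1 ≤ χ i := fun i => by linarith [hχ i, hdisc i, hfr i]
  have hχ0 : ∀ i, 0 ≤ χ i := fun i => by linarith [hχ1 i]
  have hFs : ∀ c : F, ∃ B : ℕ, ∀ i, hgt k (algebraMap F (L i) c) ≤ B * χ i := by
    intro c
    refine ⟨(hgt k c).toNat, fun i => ?_⟩
    rw [hgt_algebraMap, Int.toNat_of_nonneg (hgt_nonneg _), mul_comm]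
    exact mul_le_mul_of_nonneg_left (by linarith [hχ i, hdisc i]) (hgt_nonneg _)
  obtain ⟨D, hD⟩ := exists_der (k := k) (K := F)
  choose D' hDD' using fun i => exists_ext_der (L := L i) D
  have hD' : ∀ i, D' i ≠ 0 := by
    intro i h
    apply hD
    ext x
    have := hDD' i x
    rw [h, Derivation.coe_zero, Pi.zero_apply, eq_comm, map_eq_zero] at this
    rw [this]; rfl
  have h12 : (0 : ℤ) ≤ ∑ v ∈ (vo_finite hD).toFinset, |vo v D| * hgt k (unif v) :=
    Finset.sum_nonneg fun v _ => mul_nonneg (abs_nonneg _) (hgt_nonneg _)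
  refine ⟨{ χ := χ
            E := small 𝒰 χ hχ0 hFs
            hE := ⟨hχ0, fun a => mem_small 𝒰⟩
            D := D'
            D_ne := Eventually.of_forall hD'
            vo_bd := ⟨(∑ v ∈ (vo_finite hD).toFinset, |vo v D| * hgt k (unif v)).toNat + 1,
              Eventually.of_forall fun i T => ?_⟩
            one_le := Eventually.of_forall hχ1 }, rfl⟩
  have h1 := sum_vo_le hD (hD' i) (hDD' i) T
  refine h1.trans ?_
  push_cast
  rw [Int.toNat_of_nonneg h12]
  have h2 : (Module.finrank F (L i) : ℤ) ≤ χ i := by linarith [hχ i, hdisc i]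
  have h3 : disc k F (L i) ≤ χ i := by linarith [hχ i, hfr i]
  have h4 := mul_le_mul_of_nonneg_right h2 h12
  linarith

end Pool.Agent.Y73.FG
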